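import Pool.Agent.H86.EG3.NMA

/-!
# EG3: the places where the loss increases (modules JMA, JMB, JMC, NME)
-/

set_option autoImplicit false

namespace Pool.EG3.JM86

open Pool.EG3 Pool.EG3.NMA86

theorem rr_cast (b c m p : ℕ) (hp : p ≤ m + 1) : (Rr b c m p : ℤ) = Rz b c m p := by
  unfold Rr Rz
  push_cast
  refine Finset.sum_congr rfl fun j hj => ?_
  rw [Finset.mem_range] at hj
  rw [nn_cast, Nat.cast_sub (by omega)]

theorem rz_add (b c m : ℤ) (p : ℕ) (hp : 1 ≤ p) :
    Rz b c m p = Rz b c m (p - 1) + Nz b c (m - p + 1) := by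
  obtain ⟨r, rfl⟩ : ∃ r, p = r + 1 := ⟨p - 1, by omega⟩
  rw [rz_succ]
  have : m - ((r + 1 : ℕ) : ℤ) + 1 = m - r := by push_cast; ring
  rw [this]
  rfl

/-- the loss, row given -/
theorem val (b c T k p : ℕ) (hk : 1 ≤ k) (hp : p ≤ T) (h1 : Rz b c T p < k)
    (h2 : p < T → (k : ℤ) ≤ Rz b c T p + Nz b c (T - p)) :
    (ls b c T k : ℤ) - k = Nz b c (T - p) - Nz b c T + min (Nz b c (T - 1 - p) -
      (k - Rz b c T p)) (if (c : ℤ) ≤ T - p then 1 else 0) := by
  obtain ⟨p', a1, a2, a3, a4⟩ := loss b c T k hk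
  have : p = p' := by
    rcases Nat.lt_trichotomy p p' with h | h | h
    · have e1 := h2 (by omega)
      rw [← rz_succ] at e1
      have e2 := rz_mono b c T (show p + 1 ≤ p' by omega)
      omega
    · exact h
    · have e1 := a3 (by omega)
      rw [← rz_succ] at e1
      have e2 := rz_mono b c T (show p' + 1 ≤ p by omega)
      omega
  subst this
  exact a4

theorem ls_zero (b c m : ℕ) : ls b c m 0 = 0 := by
  cases m <;> rfl

theorem _root_.Pool.EG3.t_jma : JMAStmt := by
  intro b c t k hb hbc hk ht _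
  have h1 : Nn b c (t + 1) = 0 := by unfold Nn; omega
  have h2 : Nn b c t = 0 := by unfold Nn; omega
  refine ⟨h1, ?_⟩
  have e0 : ls b c (t + 1) k = if k = 0 then 0
        else if k ≤ Nn b c (t + 1) then min (Nn b c t) (k + if c ≤ t + 1 then 1 else 0)
        else Nn b c t + ls b c t (k - Nn b c (t + 1)) := rfl
  rw [if_neg (by omega), if_neg (by omega), h1, h2] at e0
  rw [e0]
  simp

theorem jmb (b c t k : ℕ) (hb : 2 ≤ b) (hbc : b ≤ c) (hk : 1 ≤ k) (ht : t + 2 ≤ b + c)
    (hj : ls b c (t + 1) (k - 1) + 2 ≤ ls b c (t + 1) k) :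
    ∃ i, i + c ≤ t + 1 ∧ k = Rr b c (t + 1) i + 1 ∧ 1 ≤ Nn b c (t + 1) + i := by
  obtain ⟨p, h1, h2, h3, h4⟩ := loss b c (t + 1) k hk
  have hNT : (Nn b c (t + 1) : ℤ) = Nz b c ((t + 1 : ℕ) : ℤ) := nn_cast b c (t + 1)
  rcases Nat.lt_or_ge 1 k with hk1 | hk1
  · -- k ≥ 2
    have ek : ((k - 1 : ℕ) : ℤ) = (k : ℤ) - 1 := by omega
    by_cases hκ : Rz b c ((t + 1 : ℕ) : ℤ) p + 1 < k
    · -- same row
      have := val b c (t + 1) (k - 1) p (by omega) h1 (by omega) (fun h => by
        have := h3 h; omega)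
      rw [ek] at this
      split_ifs at this h4 <;> omega
    · have hκ' : (k : ℤ) = Rz b c ((t + 1 : ℕ) : ℤ) p + 1 := by omega
      have hp1 : 1 ≤ p := by
        rcases Nat.eq_zero_or_pos p with rfl | h
        · rw [rz_zero] at hκ'; omega
        · exact h
      have er := rz_add b c ((t + 1 : ℕ) : ℤ) p hp1
      have hn1 : 1 ≤ Nz b c (((t + 1 : ℕ) : ℤ) - p + 1) := by
        by_contra hcon
        have hp2 : p = 1 := by
          unfold Nz at hcon
          push_cast at hcon
          omega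
        subst hp2
        have e1 : Nz b c (((t + 1 : ℕ) : ℤ) - ((1 : ℕ) : ℤ) + 1) = 0 := by
          have := nz_nonneg b c (((t + 1 : ℕ) : ℤ) - ((1 : ℕ) : ℤ) + 1)
          omega
        rw [e1] at er
        have e2 : Rz b c ((t + 1 : ℕ) : ℤ) (1 - 1) = 0 := rz_zero _ _ _
        rw [e2] at er
        omega
      have e3 : ((p - 1 : ℕ) : ℤ) = (p : ℤ) - 1 := by omega
      have := val b c (t + 1) (k - 1) (p - 1) (by omega) (by omega) (by omega) (fun h => by
        rw [e3]
        have e4 : ((t + 1 : ℕ) : ℤ) - ((p : ℤ) - 1) = ((t + 1 : ℕ) : ℤ) - p + 1 := by ring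
        rw [e4]
        omega)
      rw [ek, e3] at this
      have e4 : ((t + 1 : ℕ) : ℤ) - ((p : ℤ) - 1) = ((t + 1 : ℕ) : ℤ) - p + 1 := by ring
      have e5 : ((t + 1 : ℕ) : ℤ) - 1 - ((p : ℤ) - 1) = ((t + 1 : ℕ) : ℤ) - p := by ring
      rw [e4, e5] at this
      have e6 : (k : ℤ) - 1 - Rz b c ((t + 1 : ℕ) : ℤ) (p - 1) =
        Nz b c (((t + 1 : ℕ) : ℤ) - p + 1) := by omega
      rw [e6] at this
      have e7 : (k : ℤ) - Rz b c ((t + 1 : ℕ) : ℤ) p = 1 := by omega
      rw [e7] at h4
      refine ⟨p, ?_, ?_, by omega⟩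
      · by_contra hcon
        have hc0 : ¬ ((c : ℤ) ≤ ((t + 1 : ℕ) : ℤ) - p) := by push_cast; omega
        rw [if_neg hc0] at h4
        have hj' : (ls b c (t + 1) (k - 1) : ℤ) + 2 ≤ ls b c (t + 1) k := by exact_mod_cast hj
        unfold Nz at this h4
        push_cast at this h4 hc0
        split_ifs at this <;> omega
      · have := rr_cast b c (t + 1) p (by omega)
        omega
  · have hk' : k = 1 := by omega
    subst hk'
    have e0 : ls b c (t + 1) (1 - 1) = 0 := ls_zero _ _ _
    rw [e0] at hj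
    rcases Nat.eq_zero_or_pos (Nn b c (t + 1)) with h0 | h0
    · refine ⟨1, ?_, ?_, by omega⟩
      · unfold Nn at h0; omega
      · have : Rr b c (t + 1) 1 = Nn b c (t + 1) := by simp [Rr]
        rw [this, h0]
    · have hp : p = 0 := by
        by_contra hp
        have e1 := rz_mono b c ((t + 1 : ℕ) : ℤ) (show 1 ≤ p by omega)
        have e3 : Rz b c ((t + 1 : ℕ) : ℤ) 1 = Nz b c ((t + 1 : ℕ) : ℤ) := by simp [Rz]
        rw [e3] at e1
        push_cast at h2 e1 hNT
        omega
      subst hp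
      refine ⟨0, ?_, ?_, by omega⟩
      · by_contra hcon
        have hc0 : ¬ ((c : ℤ) ≤ ((t + 1 : ℕ) : ℤ) - ((0 : ℕ) : ℤ)) := by push_cast; omega
        rw [if_neg hc0, rz_zero] at h4
        have e2 : ((t + 1 : ℕ) : ℤ) - ((0 : ℕ) : ℤ) = ((t + 1 : ℕ) : ℤ) := by simp
        rw [e2] at h4
        push_cast at h4
        omega
      · simp [Rr]

theorem jmc (b c t k i : ℕ) (hb : 2 ≤ b) (hbc : b ≤ c) (ht : t + 2 ≤ b + c) (hi : i + c ≤ t + 1)
    (hk : k = Rr b c (t + 1) i + 1) (hn : 1 ≤ Nn b c (t + 1) + i) :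
    i + 1 ≤ b ∧ ls b c (t + 1) k ≤ k + i + 1 ∧
    (∀ x, 1 ≤ x → x ≤ Nn b c (t + 1) → x ≤ k → k - x + i ≤ ls b c t (k - x)) ∧
    k + i ≤ ls b c t k ∧ k + i + i ≤ ls b c t (k + i) ∧
    (i + c < t + 1 → k + i + i + 1 ≤ ls b c t (k + i)) ∧
    (∀ r, 1 ≤ r → r < i → k - r + i ≤ ls b c (t + 1) (k - r)) ∧
    (i + c = t + 1 → k + i = Rr b c t i + 1) := by
  have hkz : (k : ℤ) = Rz b c ((t : ℤ) + 1) i + 1 := by
    have := rr_cast b c (t + 1) i (by omega)
    push_cast at this
    omega
  have hnT : (Nn b c (t + 1) : ℤ) = Nz b c ((t : ℤ) + 1) := by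
    have := nn_cast b c (t + 1)
    push_cast at this
    exact this
  have hN : ∀ j : ℕ, (j : ℤ) ≤ (t : ℤ) + 1 - c + 1 →
      Nz b c ((t : ℤ) + 1 - j) = (b : ℤ) + c - 2 - t + j := by
    intro j hj
    unfold Nz
    omega
  have hn0 : Nz b c ((t : ℤ) + 1) = (b : ℤ) + c - 2 - t := by
    have := hN 0 (by push_cast; omega)
    simpa using this
  have hnt : Nz b c (t : ℤ) = (b : ℤ) + c - 1 - t := by
    have := hN 1 (by push_cast; omega)
    push_cast at this
    have e : (t : ℤ) + 1 - 1 = t := by ring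
    rw [e] at this
    omega
  have hst := rz_step b c ((t : ℤ) + 1) i
  have e1 : (t : ℤ) + 1 - 1 = t := by ring
  rw [e1, hN i (by omega), hn0] at hst
  -- last row in degree t+1 and in degree t
  have hT : 1 ≤ i → Rz b c ((t : ℤ) + 1) i = Rz b c ((t : ℤ) + 1) (i - 1) +
      ((b : ℤ) + c - 2 - t + i - 1) := by
    intro h
    rw [rz_add b c _ i h]
    have e2 : (t : ℤ) + 1 - i + 1 = (t : ℤ) + 1 - ((i - 1 : ℕ) : ℤ) := by omega
    rw [e2, hN (i - 1) (by omega)]
    omega
  have htt : 1 ≤ i → Rz b c (t : ℤ) i = Rz b c (t : ℤ) (i - 1) +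
      ((b : ℤ) + c - 2 - t + i) := by
    intro h
    rw [rz_add b c _ i h]
    have e2 : (t : ℤ) - i + 1 = (t : ℤ) + 1 - ((i : ℕ) : ℤ) := by ring
    rw [e2, hN i (by omega)]
  have hk1 : 1 ≤ k := by omega
  -- values in degree t, row i - 1
  have vt : 1 ≤ i → ∀ κ : ℕ, 1 ≤ κ → (κ : ℤ) ≤ (b : ℤ) + c - 2 - t + i →
      ∀ k' : ℕ, (k' : ℤ) = Rz b c (t : ℤ) (i - 1) + κ →
      (ls b c t k' : ℤ) - k' = i - 1 + min ((b : ℤ) + c - 2 - t + i + 1 - κ) 1 := by
    intro h κ κ1 κ2 k' hk'
    have r0 : 0 ≤ Rz b c (t : ℤ) (i - 1) := by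
      have := rz_mono b c (t : ℤ) (Nat.zero_le (i - 1))
      rw [rz_zero] at this
      exact this
    have e3 : ((i - 1 : ℕ) : ℤ) = (i : ℤ) - 1 := by omega
    have a1 : Nz b c ((t : ℤ) - ((i - 1 : ℕ) : ℤ)) = (b : ℤ) + c - 2 - t + i := by
      have e2 : (t : ℤ) - ((i - 1 : ℕ) : ℤ) = (t : ℤ) + 1 - ((i : ℕ) : ℤ) := by omega
      rw [e2, hN i (by omega)]
    have := val b c t k' (i - 1) (by omega) (by omega) (by omega) (fun _ => by
      rw [a1]; omega)
    rw [a1, hnt] at this
    have a2 : Nz b c ((t : ℤ) - 1 - ((i - 1 : ℕ) : ℤ)) = (b : ℤ) + c - 2 - t + i + 1 := by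
      have e2 : (t : ℤ) - 1 - ((i - 1 : ℕ) : ℤ) = (t : ℤ) + 1 - ((i + 1 : ℕ) : ℤ) := by
        push_cast; omega
      rw [e2, hN (i + 1) (by push_cast; omega)]
      push_cast; ring
    rw [a2, if_pos (by omega)] at this
    have a3 : (k' : ℤ) - Rz b c (t : ℤ) (i - 1) = κ := by omega
    rw [a3] at this
    omega
  refine ⟨by omega, ?_, ?_, ?_, ?_, ?_, ?_, ?_⟩
  · -- (2)
    have a1 := hN i (by omega)
    have := val b c (t + 1) k i hk1 (by omega) (by push_cast; omega) (fun _ => by
      push_cast; rw [a1]; omega)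
    push_cast at this
    rw [a1, hn0] at this
    have a3 : (k : ℤ) - Rz b c ((t : ℤ) + 1) i = 1 := by omega
    rw [a3, if_pos (by omega)] at this
    omega
  · -- (3)
    intro x x1 x2 x3
    rcases Nat.eq_zero_or_pos i with h | h
    · subst h
      rw [rz_zero] at hkz
      have : k - x = 0 := by omega
      rw [this]
      omega
    · have hT' := hT h
      have htt' := htt h
      have r0 : 0 ≤ Rz b c ((t : ℤ) + 1) (i - 1) := by
        have := rz_mono b c ((t : ℤ) + 1) (Nat.zero_le (i - 1))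
        rw [rz_zero] at this
        exact this
      have := vt h (Nn b c (t + 1) + 1 - x) (by omega) (by omega) (k - x) (by omega)
      omega
  · -- (4)
    rcases Nat.eq_zero_or_pos i with h | h
    · subst h
      rw [rz_zero] at hkz
      have := val b c t k 0 hk1 (by omega) (by rw [rz_zero]; omega) (fun _ => by
        rw [rz_zero]
        have e2 : (t : ℤ) - ((0 : ℕ) : ℤ) = t := by simp
        rw [e2, hnt]; omega)
      have e2 : (t : ℤ) - ((0 : ℕ) : ℤ) = t := by simp
      have e3 : (t : ℤ) - 1 - ((0 : ℕ) : ℤ) = t - 1 := by simp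
      rw [e2, e3, rz_zero] at this
      have a1 : 1 ≤ Nz b c ((t : ℤ) - 1) := by unfold Nz; omega
      split_ifs at this <;> omega
    · have htt' := htt h
      have := vt h (Nn b c (t + 1) + 1) (by omega) (by omega) k (by push_cast; omega)
      push_cast at this
      omega
  · -- (5)
    have a1 : Nz b c ((t : ℤ) - i) = (b : ℤ) + c - 2 - t + i + 1 := by
      have e2 : (t : ℤ) - i = (t : ℤ) + 1 - ((i + 1 : ℕ) : ℤ) := by push_cast; ring
      rw [e2, hN (i + 1) (by push_cast; omega)]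
      push_cast; ring
    have := val b c t (k + i) i (by omega) (by omega) (by push_cast; omega) (fun _ => by
      rw [a1]; push_cast; omega)
    push_cast at this
    have a2 : 1 ≤ Nz b c ((t : ℤ) - 1 - i) := by unfold Nz; omega
    rw [a1, hnt] at this
    have a3 : (k : ℤ) + i - Rz b c (t : ℤ) i = 1 := by omega
    rw [a3] at this
    split_ifs at this <;> omega
  · -- (6)
    intro hlt
    have a1 : Nz b c ((t : ℤ) - i) = (b : ℤ) + c - 2 - t + i + 1 := by
      have e2 : (t : ℤ) - i = (t : ℤ) + 1 - ((i + 1 : ℕ) : ℤ) := by push_cast; ring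
      rw [e2, hN (i + 1) (by push_cast; omega)]
      push_cast; ring
    have := val b c t (k + i) i (by omega) (by omega) (by push_cast; omega) (fun _ => by
      rw [a1]; push_cast; omega)
    push_cast at this
    have a2 : 2 ≤ Nz b c ((t : ℤ) - 1 - i) := by unfold Nz; omega
    rw [a1, hnt] at this
    have a3 : (k : ℤ) + i - Rz b c (t : ℤ) i = 1 := by omega
    rw [a3, if_pos (by omega)] at this
    omega
  · -- (7)
    intro r r1 r2
    have h : 1 ≤ i := by omega
    have hT' := hT h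
    have r0 : 0 ≤ Rz b c ((t : ℤ) + 1) (i - 1) := by
      have := rz_mono b c ((t : ℤ) + 1) (Nat.zero_le (i - 1))
      rw [rz_zero] at this
      exact this
    have a1 : Nz b c ((t : ℤ) + 1 - ((i - 1 : ℕ) : ℤ)) = (b : ℤ) + c - 2 - t + i - 1 := by
      rw [hN (i - 1) (by omega)]; omega
    have hkr : ((k - r : ℕ) : ℤ) = k - r := by omega
    have := val b c (t + 1) (k - r) (i - 1) (by omega) (by omega) (by push_cast; omega)
      (fun _ => by push_cast; rw [a1]; omega)
    push_cast at this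
    have a2 : Nz b c ((t : ℤ) + 1 - 1 - ((i - 1 : ℕ) : ℤ)) = (b : ℤ) + c - 2 - t + i := by
      have e2 : (t : ℤ) + 1 - 1 - ((i - 1 : ℕ) : ℤ) = (t : ℤ) + 1 - ((i : ℕ) : ℤ) := by omega
      rw [e2, hN i (by omega)]
    rw [a1, a2, hn0, if_pos (by omega), hkr] at this
    omega
  · -- (8)
    intro _
    have := rr_cast b c t i (by omega)
    omega

theorem _root_.Pool.EG3.t_nme : NMEStmt := by
  intro b c t i H hb hbc hi hib hit h0 hg
  have key : ∀ u, i ≤ u → u ≤ t → (H u : ℤ) ≤ Rz b c u i := by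
    intro u hu
    induction u, hu using Nat.le_induction with
    | base =>
        intro _
        have e : ∀ p : ℕ, p ≤ i → 2 * Rz b c i p = (p : ℤ) * (2 * i + 3 - p) := by
          intro p
          induction p with
          | zero => intro _; simp [rz_zero]
          | succ p ih =>
              intro hp
              have a1 := ih (by omega)
              rw [rz_succ]
              have a2 : Nz b c ((i : ℤ) - p) = i - p + 1 := by unfold Nz; omega
              rw [a2]
              push_cast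
              linarith
        have a1 := e i le_rfl
        have a2 : 2 * ((H i : ℤ) + 1) ≤ ((i : ℤ) + 1) * (i + 2) := by exact_mod_cast h0
        nlinarith
    | succ u hu ih =>
        intro hut
        have a1 := ih (by omega)
        have a2 := hg u hu (by omega)
        by_contra hcon
        push Not at hcon
        rcases Nat.eq_zero_or_pos (H (u + 1)) with hz | hz
        · rw [hz] at hcon
          have := rz_mono b c ((u + 1 : ℕ) : ℤ) (Nat.zero_le i)
          rw [rz_zero] at this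
          push_cast at hcon this
          omega
        obtain ⟨p, h1, h2, h3, h4⟩ := row b c (u + 1) (H (u + 1)) hz
        have hpi : i ≤ p := by
          by_contra hp
          have e1 := h3 (by omega)
          rw [← rz_succ] at e1
          have e2 := rz_mono b c ((u + 1 : ℕ) : ℤ) (show p + 1 ≤ i by omega)
          omega
        have e1 : ((u + 1 : ℕ) : ℤ) - 1 = u := by push_cast; ring
        rw [e1] at h4
        have n1 : 1 ≤ Nz b c ((u : ℤ) - i) := by unfold Nz; omega
        have a2' : (ls b c (u + 1) (H (u + 1)) : ℤ) ≤ H u := by exact_mod_cast a2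
        rcases Nat.lt_or_ge i p with hp | hp
        · have e2 := rz_mono b c (u : ℤ) (show i + 1 ≤ p by omega)
          rw [rz_succ] at e2
          have n2 := nz_nonneg b c ((u : ℤ) - p)
          split_ifs at h4 <;> omega
        · have hp' : p = i := by omega
          subst hp'
          split_ifs at h4 <;> omega
  have := key t (by omega) le_rfl
  have e := rr_cast b c t i (by omega)
  omega

end Pool.EG3.JM86
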