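import Pool.Agent.H45.EG3.S3

/-!
# EG3: monomial ideals with caps (modules MNM and LEX)
-/

set_option autoImplicit false

namespace Pool.EG3.LEX86

open MvPolynomial Pool.EGH Pool.EG3
open Pool.EGC (lx MNIStmt LXMStmt LXOStmt)

/-- Counting exponents of a given degree. -/
theorem cnt {n : ℕ} (d : ℕ) (P : (Fin n → ℕ) → Prop) [DecidablePred P] :
    Nat.card {s : Fin n →₀ ℕ // P (fun i => s i) ∧ s.degree = d} =
      ((Finset.piAntidiag Finset.univ d).filter P).card := by
  classical
  rw [← Fintype.card_coe, ← Nat.card_eq_fintype_card]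
  refine Nat.card_congr ⟨fun s => ⟨fun i => s.1 i, ?_⟩,
    fun x => ⟨Finsupp.equivFunOnFinite.symm x.1, ?_⟩, fun s => ?_, fun x => ?_⟩
  · rw [Finset.mem_filter, Finset.mem_piAntidiag]
    exact ⟨⟨(Finsupp.degree_eq_sum s.1).symm.trans s.2.2, fun i _ => Finset.mem_univ i⟩, s.2.1⟩
  · have h := x.2
    rw [Finset.mem_filter, Finset.mem_piAntidiag] at h
    refine ⟨h.2, ?_⟩
    rw [Finsupp.degree_eq_sum]
    exact h.1.1
  · exact Subtype.ext (Finsupp.ext fun i => rfl)
  · exact Subtype.ext rfl

/-- The Hilbert function of a monomial ideal. -/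
theorem hfm (hMNI : MNIStmt) {K : Type} [Field K] {n : ℕ} (c : Fin n → ℕ∞) (d : ℕ)
    (S : Set (Fin n →₀ ℕ)) (hup : ∀ s ∈ S, ∀ t, s ≤ t → t ∈ S) (T : Finset (Fin n → ℕ))
    (hT : T ⊆ Mo c d) (hS : ∀ s : Fin n →₀ ℕ, s.degree = d →
      (s ∈ S ↔ ¬ Cp c (fun i => s i) ∨ (fun i => s i) ∈ T)) :
    hf (Ideal.span ((fun s => monomial s (1 : K)) '' S)) d + T.card = (Mo c d).card := by
  classical
  have h0 := (hMNI K n d S hup).2
  have hc1 : Nat.card {s : Fin n →₀ ℕ // s ∈ S ∧ s.degree = d} =
      Nat.card {s : Fin n →₀ ℕ // (¬ Cp c (fun i => s i) ∨ (fun i => s i) ∈ T) ∧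
        s.degree = d} := by
    refine Nat.card_congr (Equiv.subtypeEquivRight fun s => ?_)
    constructor
    · rintro ⟨h1, h2⟩
      exact ⟨(hS s h2).1 h1, h2⟩
    · rintro ⟨h1, h2⟩
      exact ⟨(hS s h2).2 h1, h2⟩
  rw [hc1, cnt d (fun x => ¬ Cp c x ∨ x ∈ T)] at h0
  have hall : Module.finrank K ↥(fm K n d) = (Finset.piAntidiag (Finset.univ : Finset (Fin n))
      d).card := by
    have h4 := (hMNI K n d Set.univ (fun s _ t _ => Set.mem_univ t)).2
    have e1 : Ideal.span ((fun s => monomial s (1 : K)) '' (Set.univ : Set (Fin n →₀ ℕ))) =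
        ⊤ := by
      rw [Ideal.eq_top_iff_one]
      exact Ideal.subset_span ⟨0, Set.mem_univ _, rfl⟩
    rw [e1] at h4
    have e2 : (homogeneousSubmodule (Fin n) K d ⊓ Submodule.restrictScalars K
        (⊤ : Ideal (PR K n))) = fm K n d := by
      rw [Submodule.restrictScalars_top, inf_top_eq]
    rw [e2] at h4
    rw [h4]
    have h5 : Nat.card {s : Fin n →₀ ℕ // s ∈ (Set.univ : Set (Fin n →₀ ℕ)) ∧ s.degree = d} =
        Nat.card {s : Fin n →₀ ℕ // (fun _ : Fin n → ℕ => True) (fun i => s i) ∧
          s.degree = d} :=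
      Nat.card_congr (Equiv.subtypeEquivRight fun s => ⟨fun h => ⟨trivial, h.2⟩,
        fun h => ⟨Set.mem_univ _, h.2⟩⟩)
    rw [h5, cnt d (fun _ => True), Finset.filter_true]
  have hsplit : ((Finset.piAntidiag (Finset.univ : Finset (Fin n)) d).filter
      (fun x => ¬ Cp c x ∨ x ∈ T)).card =
      ((Finset.piAntidiag (Finset.univ : Finset (Fin n)) d).filter
        (fun x => ¬ Cp c x)).card + T.card := by
    rw [Finset.filter_or]
    have e3 : (Finset.piAntidiag (Finset.univ : Finset (Fin n)) d).filter (fun x => x ∈ T) =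
        T := by
      ext x
      rw [Finset.mem_filter]
      refine ⟨fun h => h.2, fun h => ⟨?_, h⟩⟩
      have h5 := hT h
      unfold Mo at h5
      exact (Finset.mem_filter.1 h5).1
    rw [e3]
    refine Finset.card_union_of_disjoint (Finset.disjoint_left.2 fun x hx hx' => ?_)
    have h5 := hT hx'
    unfold Mo at h5
    exact (Finset.mem_filter.1 hx).2 (Finset.mem_filter.1 h5).2
  have htot : (Finset.piAntidiag (Finset.univ : Finset (Fin n)) d).card =
      (Mo c d).card + ((Finset.piAntidiag (Finset.univ : Finset (Fin n)) d).filter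
        (fun x => ¬ Cp c x)).card := by
    have e4 : (Mo c d).card = ((Finset.piAntidiag (Finset.univ : Finset (Fin n))
        d).filter (fun x => Cp c x)).card := by
      unfold Mo
      refine congrArg Finset.card (Finset.ext fun x => ?_)
      rw [Finset.mem_filter]
    rw [e4, Finset.card_filter_add_card_filter_not]
  unfold hf
  rw [inf_comm, h0, hall, hsplit, htot]
  have hle : T.card ≤ (Mo c d).card := Finset.card_le_card hT
  omega

/-- The exponents with a large entry at one of the first three places. -/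
def vio (n a b c : ℕ) : Set (Fin n →₀ ℕ) := {s | ¬ Cp (cp a b c n) (fun i => s i)}

theorem vio_up {n a b c : ℕ} {s t : Fin n →₀ ℕ} (hs : s ∈ vio n a b c) (hst : s ≤ t) :
    t ∈ vio n a b c := by
  intro h
  apply hs
  intro i
  refine lt_of_le_of_lt ?_ (h i)
  exact_mod_cast hst i

theorem _root_.Pool.EG3.t_mnm (hMNI : MNIStmt) (hMOM : MOMStmt) : MNMStmt := by
  classical
  intro K _ a b c d A hA
  set S : Set (Fin 3 →₀ ℕ) := vio 3 a b c ∪ {s | ∃ x ∈ A, ∀ i, x i ≤ s i} with hS
  have hup : ∀ s ∈ S, ∀ t, s ≤ t → t ∈ S := by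
    rintro s (hs | ⟨x, hx, hs⟩) t hst
    · exact Or.inl (vio_up hs hst)
    · exact Or.inr ⟨x, hx, fun i => (hs i).trans (hst i)⟩
  have hmem : ∀ s ∈ S, monomial s (1 : K) ∈ Ideal.span ((fun s => monomial s (1 : K)) '' S) :=
    fun s hs => Ideal.subset_span ⟨s, hs, rfl⟩
  have hvio : ∀ (i : Fin 3) (e : ℕ), ¬ ((e : ℕ∞) < cp a b c 3 i) →
      (X i : PR K 3) ^ e ∈ Ideal.span ((fun s => monomial s (1 : K)) '' S) := by
    intro i e he
    rw [X_pow_eq_monomial]
    apply hmem
    left
    intro h
    apply he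
    have := h i
    simpa using this
  refine ⟨Ideal.span ((fun s => monomial s (1 : K)) '' S), ?_, hvio 0 a ?_, hvio 1 b ?_,
    hvio 2 c ?_, ?_, ?_⟩
  · -- homogeneous
    intro p hp e
    rw [(hMNI K 3 0 S hup).1] at hp ⊢
    intro s hs
    apply hp
    rw [mem_support_iff, coeff_homogeneousComponent] at hs
    rw [mem_support_iff]
    intro h0
    apply hs
    split_ifs
    · exact h0
    · rfl
  · simp [cp]
  · simp [cp]
  · simp [cp]
  · refine hfm hMNI (cp a b c 3) d S hup A hA ?_
    intro s hs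
    constructor
    · rintro (h | ⟨x, hx, h⟩)
      · exact Or.inl h
      · right
        have hxm := ((hMOM 3 (cp a b c 3) d x).1).1 (hA hx)
        have hsum : ∑ i, s i = d := by rw [← hs, Finsupp.degree_eq_sum]
        have : x = fun i => s i := by
          funext i
          by_contra hne
          have h1 : x i < s i := lt_of_le_of_ne (h i) hne
          have h2 : ∑ i, x i < ∑ i, s i :=
            Finset.sum_lt_sum (fun i _ => h i) ⟨i, Finset.mem_univ _, h1⟩
          omega
        rw [← this]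
        exact hx
    · rintro (h | h)
      · exact Or.inl h
      · exact Or.inr ⟨_, h, fun i => le_rfl⟩
  · refine hfm hMNI (cp a b c 3) (d + 1) S hup (up (cp a b c 3) d A) ?_ ?_
    · intro y hy
      exact (((hMOM 3 (cp a b c 3) d y).2 A y).1 hy).1
    · intro s hs
      have hsum : ∑ i, s i = d + 1 := by rw [← hs, Finsupp.degree_eq_sum]
      constructor
      · rintro (h | ⟨x, hx, h⟩)
        · exact Or.inl h
        · by_cases hcp : Cp (cp a b c 3) (fun i => s i)
          · right
            rw [(hMOM 3 (cp a b c 3) d x).2]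
            refine ⟨((hMOM 3 (cp a b c 3) (d + 1) _).1).2 ⟨hsum, hcp⟩, x, hx, ?_⟩
            have hxm := ((hMOM 3 (cp a b c 3) d x).1).1 (hA hx)
            obtain ⟨i, hi⟩ : ∃ i, x i < s i := by
              by_contra hcon
              push Not at hcon
              have : ∑ i, s i ≤ ∑ i, x i := Finset.sum_le_sum fun i _ => hcon i
              omega
            refine ⟨i, ?_⟩
            have key : ∀ j, (x + Pi.single i 1 : Fin 3 → ℕ) j ≤ s j := by
              intro j
              by_cases hj : j = i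
              · subst hj
                simp only [Pi.add_apply, Pi.single_eq_same]
                omega
              · simp only [Pi.add_apply, Pi.single_eq_of_ne hj, add_zero]
                exact h j
            have hs2 : ∑ j, (x + Pi.single i 1 : Fin 3 → ℕ) j = d + 1 := by
              simp only [Pi.add_apply]
              rw [Finset.sum_add_distrib, hxm.1, Finset.sum_pi_single',
                if_pos (Finset.mem_univ _)]
            funext j
            by_contra hne
            have h1 : (x + Pi.single i 1 : Fin 3 → ℕ) j < s j :=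
              lt_of_le_of_ne (key j) (Ne.symm hne)
            have h2 : ∑ j, (x + Pi.single i 1 : Fin 3 → ℕ) j < ∑ j, s j :=
              Finset.sum_lt_sum (fun i _ => key i) ⟨j, Finset.mem_univ _, h1⟩
            omega
          · exact Or.inl hcp
      · rintro (h | h)
        · exact Or.inl h
        · right
          obtain ⟨_, x, hx, i, hi⟩ := ((hMOM 3 (cp a b c 3) d (fun i => s i)).2 A _).1 h
          refine ⟨x, hx, fun j => ?_⟩
          have := congrFun hi j
          simp only [Pi.add_apply] at this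
          omega

/-- The exponents of the lexicographic ideal. -/
def lexS {n : ℕ} (A : ℕ → Finset (Fin n → ℕ)) : Set (Fin n →₀ ℕ) :=
  {s | ∃ x ∈ A s.degree, x = (fun i => s i) ∨ lx x (fun i => s i)}

theorem lexS_step (hLXO : LXOStmt) (hMOM : MOMStmt) {n a b c : ℕ} (hr : 3 < n)
    {A : ℕ → Finset (Fin n → ℕ)} (h1 : ∀ d, Sg (cp a b c n) d (A d))
    (h2 : ∀ d, up (cp a b c n) d (A d) ⊆ A (d + 1)) {s : Fin n →₀ ℕ} (hs : s ∈ lexS A)
    (i : Fin n) : s + Finsupp.single i 1 ∈ lexS A := by
  classical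
  obtain ⟨m, rfl⟩ : ∃ m, n = m + 1 := ⟨n - 1, by omega⟩
  obtain ⟨x, hx, hxs⟩ := hs
  have e1 : (fun j => (s + Finsupp.single i 1 : Fin (m + 1) →₀ ℕ) j) =
      (fun j => s j) + Pi.single i 1 := by
    funext j
    rw [Finsupp.add_apply, Pi.add_apply, Finsupp.single_eq_pi_single]
  have e2 : (s + Finsupp.single i 1).degree = s.degree + 1 := by
    rw [map_add, Finsupp.degree_single]
  have hxm := ((hMOM (m + 1) (cp a b c (m + 1)) s.degree x).1).1 ((h1 _).1 hx)
  have hy : x + Pi.single (Fin.last m) 1 ∈ A (s.degree + 1) := by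
    refine h2 _ (((hMOM (m + 1) (cp a b c (m + 1)) s.degree x).2 (A s.degree) _).2
      ⟨((hMOM (m + 1) (cp a b c (m + 1)) (s.degree + 1) _).1).2 ⟨?_, fun j => ?_⟩,
        x, hx, Fin.last m, rfl⟩)
    · simp only [Pi.add_apply]
      rw [Finset.sum_add_distrib, hxm.1, Finset.sum_pi_single', if_pos (Finset.mem_univ _)]
    · by_cases hj : j = Fin.last m
      · subst hj
        have : cp a b c (m + 1) (Fin.last m) = ⊤ := by
          simp only [cp, Fin.val_last]
          rw [if_neg (by omega), if_neg (by omega), if_neg (by omega)]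
        rw [this]
        exact ENat.natCast_lt_top _
      · rw [Pi.add_apply, Pi.single_eq_of_ne hj, add_zero]
        exact hxm.2 j
  refine ⟨x + Pi.single (Fin.last m) 1, by rw [e2]; exact hy, ?_⟩
  rw [e1]
  have hlast : ∀ z : Fin (m + 1) → ℕ, z + Pi.single (Fin.last m) 1 = z + Pi.single i 1 ∨
      lx (z + Pi.single (Fin.last m) 1) (z + Pi.single i 1) := by
    intro z
    rcases (Fin.le_last i).lt_or_eq with h3 | h3
    · exact Or.inr ((hLXO (m + 1) z z z).2.2.2.2 i (Fin.last m) h3)
    · exact Or.inl (by rw [h3])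
  rcases hxs with hxs | hxs
  · rw [← hxs]
    exact hlast x
  · have h3 : lx (x + Pi.single i 1) ((fun j => s j) + Pi.single i 1) :=
      (hLXO (m + 1) x (fun j => s j) (Pi.single i 1)).2.2.2.1.2 hxs
    right
    rcases hlast x with h4 | h4
    · rw [h4]
      exact h3
    · exact (hLXO (m + 1) _ _ _).2.1 h4 h3

theorem lexS_up (hLXO : LXOStmt) (hMOM : MOMStmt) {n a b c : ℕ} (hr : 3 < n)
    {A : ℕ → Finset (Fin n → ℕ)} (h1 : ∀ d, Sg (cp a b c n) d (A d))
    (h2 : ∀ d, up (cp a b c n) d (A d) ⊆ A (d + 1)) :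
    ∀ s ∈ lexS A, ∀ t, s ≤ t → t ∈ lexS A := by
  classical
  have h3 : ∀ u s : Fin n →₀ ℕ, s ∈ lexS A → s + u ∈ lexS A := by
    intro u
    induction u using Finsupp.induction_linear with
    | zero =>
      intro s hs
      rw [add_zero]
      exact hs
    | add f g hf hg =>
      intro s hs
      rw [← add_assoc]
      exact hg _ (hf _ hs)
    | single i e =>
      intro s hs
      induction e with
      | zero =>
        rw [Finsupp.single_zero, add_zero]
        exact hs
      | succ e ih =>
        rw [Finsupp.single_add, ← add_assoc]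
        exact lexS_step hLXO hMOM hr h1 h2 ih i
  intro s hs t hst
  have h4 := h3 (t - s) s hs
  rwa [add_tsub_cancel_of_le hst] at h4

/-- The sum of the ideals is a monomial ideal. -/
theorem lex_sup {K : Type} [Field K] {n : ℕ} (hr : 3 < n) (a : Fin 3 → ℕ)
    (S : Set (Fin n →₀ ℕ)) :
    Ideal.span (Set.range fun i : Fin 3 => (X (Fin.castLE hr.le i) : PR K n) ^ a i) ⊔
      Ideal.span ((fun s => monomial s (1 : K)) '' S) =
    Ideal.span ((fun s => monomial s (1 : K)) '' (vio n (a 0) (a 1) (a 2) ∪ S)) := by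
  classical
  have hcp : ∀ i : Fin 3, cp (a 0) (a 1) (a 2) n (Fin.castLE hr.le i) = a i := by
    intro i
    fin_cases i <;> simp [cp]
  apply le_antisymm
  · refine sup_le ?_ (Ideal.span_mono (Set.image_mono Set.subset_union_right))
    rw [Ideal.span_le]
    rintro _ ⟨i, rfl⟩
    refine Ideal.subset_span ⟨Finsupp.single (Fin.castLE hr.le i) (a i), Or.inl ?_, ?_⟩
    · intro h
      have h1 := h (Fin.castLE hr.le i)
      rw [hcp] at h1
      simp at h1
    · show monomial (Finsupp.single (Fin.castLE hr.le i) (a i)) (1 : K) =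
        (X (Fin.castLE hr.le i) : PR K n) ^ a i
      rw [X_pow_eq_monomial]
  · rw [Ideal.span_le]
    rintro _ ⟨s, hs | hs, rfl⟩
    · have hs' : ¬ Cp (cp (a 0) (a 1) (a 2) n) (fun i => s i) := hs
      unfold Cp at hs'
      push Not at hs'
      obtain ⟨i, hi⟩ := hs'
      have hi3 : (i : ℕ) < 3 := by
        by_contra hcon
        have : cp (a 0) (a 1) (a 2) n i = ⊤ := by
          simp only [cp]
          rw [if_neg (by omega), if_neg (by omega), if_neg (by omega)]
        rw [this, top_le_iff] at hi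
        exact ENat.natCast_ne_top _ hi
      have e1 : (Fin.castLE hr.le ⟨i, hi3⟩ : Fin n) = i := rfl
      have h2 : a ⟨i, hi3⟩ ≤ s i := by
        have := hcp ⟨i, hi3⟩
        rw [e1] at this
        rw [this] at hi
        exact_mod_cast hi
      refine Ideal.mem_sup_left ?_
      have h3 : monomial s (1 : K) = monomial (s - Finsupp.single i (a ⟨i, hi3⟩)) (1 : K) *
          (X (Fin.castLE hr.le ⟨i, hi3⟩) : PR K n) ^ a ⟨i, hi3⟩ := by
        rw [X_pow_eq_monomial, monomial_mul, one_mul]
        congr 1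
        rw [e1, tsub_add_cancel_of_le]
        exact Finsupp.single_le_iff.2 h2
      show monomial s (1 : K) ∈ _
      rw [h3]
      exact Ideal.mul_mem_left _ _ (Ideal.subset_span ⟨⟨i, hi3⟩, rfl⟩)
    · exact Ideal.mem_sup_right (Ideal.subset_span ⟨s, hs, rfl⟩)

theorem hf_inj (hFIN : FINStmt) {K : Type} [Field K] {n : ℕ} (I J : Ideal (PR K n)) (d : ℕ)
    (h : hf I d = hf J d) :
    Module.finrank K ↥(homogeneousSubmodule (Fin n) K d ⊓ Submodule.restrictScalars K I) =
      Module.finrank K ↥(homogeneousSubmodule (Fin n) K d ⊓ Submodule.restrictScalars K J) := by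
  have := hFIN K n d
  have key : ∀ I' : Ideal (PR K n), ∃ v : ℕ, v = Module.finrank K
      ↥(homogeneousSubmodule (Fin n) K d ⊓ Submodule.restrictScalars K I') ∧
      v ≤ Module.finrank K ↥(fm K n d) ∧ hf I' d = Module.finrank K ↥(fm K n d) - v := by
    intro I'
    refine ⟨_, rfl, Submodule.finrank_mono inf_le_left, ?_⟩
    unfold hf
    rw [inf_comm]
  obtain ⟨v, v1, v2, v3⟩ := key I
  obtain ⟨w, w1, w2, w3⟩ := key J
  rw [← v1, ← w1]
  omega

/-- **LEX.** -/
theorem _root_.Pool.EG3.t_lex (hMNI : MNIStmt) (hLXM : LXMStmt) (hLXO : LXOStmt) (hMOM : MOMStmt)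
    (hFIN : FINStmt) : LEXStmt := by
  classical
  intro K _ n hr a I _ hRz
  obtain ⟨A, h1, h2, h3⟩ := hRz
  have hup := lexS_up hLXO hMOM hr h1 h2
  have hmem : ∀ s : Fin n →₀ ℕ, monomial s (1 : K) ∈
      Ideal.span ((fun s => monomial s (1 : K)) '' lexS A) ↔ s ∈ lexS A := by
    intro s
    refine ⟨fun h => ((hMNI K n 0 (lexS A) hup).1 _).1 h s ?_,
      fun h => Ideal.subset_span ⟨s, h, rfl⟩⟩
    rw [mem_support_iff, coeff_monomial, if_pos rfl]
    exact one_ne_zero
  refine ⟨Ideal.span ((fun s => monomial s (1 : K)) '' lexS A), fun p hp s hs =>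
    (hmem s).2 (((hMNI K n 0 (lexS A) hup).1 p).1 hp s hs), fun s t hst hs hle => ?_,
    fun d => ?_⟩
  · rw [hmem] at hs ⊢
    rcases (hLXM n s t).1 hle with h4 | h4
    · rw [← h4]
      exact hs
    · obtain ⟨x, hx, hxs⟩ := hs
      refine ⟨x, by rw [← hst]; exact hx, Or.inr ?_⟩
      rcases hxs with h5 | h5
      · rw [h5]
        exact h4
      · exact (hLXO n x (fun i => s i) (fun i => t i)).2.1 h5 h4
  · rw [lex_sup hr]
    have hup' : ∀ s ∈ vio n (a 0) (a 1) (a 2) ∪ lexS A, ∀ t, s ≤ t →
        t ∈ vio n (a 0) (a 1) (a 2) ∪ lexS A := by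
      rintro s (hs | hs) t hst
      · exact Or.inl (vio_up hs hst)
      · exact Or.inr (hup s hs t hst)
    have key := hfm hMNI (K := K) (cp (a 0) (a 1) (a 2) n) d _ hup' (A d) (h1 d).1 (by
      intro s hs
      constructor
      · rintro (h | h)
        · exact Or.inl h
        · by_cases h5 : Cp (cp (a 0) (a 1) (a 2) n) (fun i => s i)
          · right
            obtain ⟨x, hx, hxs⟩ := h
            rw [hs] at hx
            rcases hxs with h6 | h6
            · rw [← h6]
              exact hx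
            · exact (h1 d).2 x hx _ (((hMOM n (cp (a 0) (a 1) (a 2) n) d _).1).2
                ⟨by rw [← hs, Finsupp.degree_eq_sum], h5⟩) h6
          · exact Or.inl h5
      · rintro (h | h)
        · exact Or.inl h
        · exact Or.inr ⟨_, by rw [hs]; exact h, Or.inl rfl⟩)
    have h6 := h3 d
    exact (hf_inj hFIN _ _ d (by omega)).symm

end Pool.EG3.LEX86
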