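import Pool.Agent.H45.EG3.HFB

/-!
# EG3: forms not divisible by a linear form (module LNB)
-/

set_option autoImplicit false

namespace Pool.EG3.LNB86

open MvPolynomial Pool.EGH Pool.EG3

theorem hf_bot (hHSB : HSBStmt) (K : Type) [Field K] (m : ℕ) :
    2 * hf (⊥ : Ideal (PR K 3)) m = (m + 1) * (m + 2) := by
  rw [← fr3 hHSB K m]
  congr 1
  unfold hf
  have h1 : ((⊥ : Ideal (PR K 3)).restrictScalars K ⊓ fm K 3 m) = ⊥ := by
    rw [eq_bot_iff]
    rintro x ⟨hx, _⟩
    exact hx
  rw [h1, finrank_bot]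
  rfl

theorem _root_.Pool.EG3.t_lnb (hHSB : HSBStmt) (hHGA : HGAStmt) (hCOL : COLStmt)
    (hMON : MONStmt) : LNBStmt := by
  intro K _ J l F e hJ hl hl0 hFJ hF hlF m
  set I : Ideal (PR K 3) := ⊥ ⊔ Ideal.span {l} with hI
  have hI' : I = Ideal.span {l} := by rw [hI, bot_sup_eq]
  have hg : Hg I := ((hHGA K 3).2.1 ⊥ 1 l (hHGA K 3).1 hl).1
  obtain ⟨c1, c2⟩ := hCOL K 3 1 ⊥ l (hHGA K 3).1 hl
  obtain ⟨d1, d2⟩ := hCOL K 3 e I F hg hF
  have hcl : clI (⊥ : Ideal (PR K 3)) l = ⊥ := by
    rw [eq_bot_iff]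
    intro g hg
    have : l * g = 0 := hg
    rcases mul_eq_zero.1 this with h | h
    · exact absurd h hl0
    · exact h
  -- the Hilbert function modulo l
  have e1 : ∀ v, hf I v = v + 1 := by
    intro v
    rcases Nat.eq_zero_or_pos v with h | h
    · subst h
      have a1 : hf I 0 = hf (⊥ : Ideal (PR K 3)) 0 := c2 0 Nat.one_pos
      have a2 := hf_bot hHSB K 0
      rw [a1]
      linarith
    · obtain ⟨w, rfl⟩ : ∃ w, v = w + 1 := ⟨v - 1, by omega⟩
      have a1 := c1 w
      rw [hcl] at a1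
      have a2 := hf_bot hHSB K w
      have a3 := hf_bot hHSB K (w + 1)
      have a5 : hf I (w + 1) + hf (⊥ : Ideal (PR K 3)) w = hf (⊥ : Ideal (PR K 3)) (w + 1) := a1
      nlinarith
  -- l is prime
  have hpr : Prime l := by
    have hirr : Irreducible l := by
      refine ⟨?_, ?_⟩
      · intro hu
        obtain ⟨r, hr, hr'⟩ := MvPolynomial.isUnit_iff_eq_C_of_isReduced.1 hu
        have h0 : (C r : PR K 3) ∈ fm K 3 0 := isHomogeneous_C _ _
        rw [← hr'] at h0
        have := IsHomogeneous.inj_right hl h0 hl0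
        omega
      · intro p q hpq
        have hp0 : p ≠ 0 := by rintro rfl; rw [zero_mul] at hpq; exact hl0 hpq
        have hq0 : q ≠ 0 := by rintro rfl; rw [mul_zero] at hpq; exact hl0 hpq
        have ht : l.totalDegree = 1 := IsHomogeneous.totalDegree hl hl0
        rw [hpq, MvPolynomial.totalDegree_mul_of_isDomain hp0 hq0] at ht
        rcases Nat.eq_zero_or_pos p.totalDegree with h | h
        · left
          rw [totalDegree_eq_zero_iff_eq_C.1 h] at hp0 ⊢
          refine (isUnit_iff_ne_zero.2 ?_).map C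
          intro h1; rw [h1, C_0] at hp0; exact hp0 rfl
        · right
          have h' : q.totalDegree = 0 := by omega
          rw [totalDegree_eq_zero_iff_eq_C.1 h'] at hq0 ⊢
          refine (isUnit_iff_ne_zero.2 ?_).map C
          intro h1; rw [h1, C_0] at hq0; exact hq0 rfl
    exact hirr.prime
  have hcl2 : clI I F = I := by
    apply le_antisymm
    · intro g hg
      have h1 : F * g ∈ I := hg
      rw [hI', Ideal.mem_span_singleton] at h1 ⊢
      rcases hpr.dvd_or_dvd h1 with h | h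
      · exact absurd h hlF
      · exact h
    · intro g hg
      exact I.mul_mem_left _ hg
  have hle : I ⊔ Ideal.span {F} ≤ J ⊔ Ideal.span {l} := by
    rw [hI']
    refine sup_le le_sup_right ?_
    rw [Ideal.span_le, Set.singleton_subset_iff]
    exact Ideal.mem_sup_left hFJ
  refine ((hMON K 3 _ _ m hle).1).trans ?_
  rcases Nat.lt_or_ge m e with h | h
  · rw [d2 m h, e1]
    omega
  · obtain ⟨i, rfl⟩ : ∃ i, m = i + e := ⟨m - e, by omega⟩
    have a1 := d1 i
    rw [hcl2, e1, e1] at a1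
    omega

end Pool.EG3.LNB86
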