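import Pool.Agent.H45.EG3.S1
import Pool.Agent.H45.EG3.PTI

/-!
# EG3: pieces of the quotient as quotient spaces; modules LNK and SGC
-/

set_option autoImplicit false

namespace Pool.EG3.LNK86

open MvPolynomial Pool.EGH Pool.EG3

variable {K : Type} [Field K] {N : ℕ}

/-- `P` modulo `Q` -/
abbrev QT (P Q : Submodule K (PR K N)) : Type := ↥P ⧸ Q.comap P.subtype

theorem finrank_QT (P Q : Submodule K (PR K N)) [Module.Finite K ↥P] :
    Module.finrank K (QT P Q) + Module.finrank K ↥(Q ⊓ P) = Module.finrank K ↥P := by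
  have h1 := Submodule.finrank_quotient_add_finrank (Q.comap P.subtype)
  have h2 : Module.finrank K ↥(Q.comap P.subtype) = Module.finrank K ↥(Q ⊓ P) := by
    rw [← Submodule.finrank_map_subtype_eq P (Q.comap P.subtype), Submodule.map_comap_subtype,
      inf_comm]
  rw [← h2]
  exact h1

/-- class of an element -/
noncomputable def cl {P : Submodule K (PR K N)} (Q : Submodule K (PR K N)) (g : PR K N) (hg : g ∈ P) : QT P Q :=
  Submodule.Quotient.mk ⟨g, hg⟩

theorem cl_eq_zero {P Q : Submodule K (PR K N)} {g : PR K N} (hg : g ∈ P) :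
    cl Q g hg = 0 ↔ g ∈ Q := by
  unfold cl
  rw [Submodule.Quotient.mk_eq_zero, Submodule.mem_comap]
  rfl

theorem cl_surj {P Q : Submodule K (PR K N)} (v : QT P Q) : ∃ g, ∃ hg : g ∈ P, v = cl Q g hg := by
  obtain ⟨⟨g, hg⟩, rfl⟩ := Submodule.Quotient.mk_surjective _ v
  exact ⟨g, hg, rfl⟩

/-- multiplication by `w` -/
noncomputable def mq {P P' Q Q' : Submodule K (PR K N)} (w : PR K N) (h1 : ∀ g ∈ P, w * g ∈ P')
    (h2 : ∀ g ∈ Q, w * g ∈ Q') : QT P Q →ₗ[K] QT P' Q' :=
  Submodule.mapQ _ _ ((LinearMap.mulLeft K w).restrict h1) (by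
    intro g hg
    rw [Submodule.mem_comap] at hg ⊢
    rw [Submodule.mem_comap]
    exact h2 _ hg)

theorem mq_cl {P P' Q Q' : Submodule K (PR K N)} (w : PR K N) (h1 : ∀ g ∈ P, w * g ∈ P')
    (h2 : ∀ g ∈ Q, w * g ∈ Q') {g : PR K N} (hg : g ∈ P) :
    mq w h1 h2 (cl Q g hg) = cl Q' (w * g) (h1 g hg) := rfl

theorem cl_add {P Q : Submodule K (PR K N)} {g g' : PR K N} (hg : g ∈ P) (hg' : g' ∈ P) :
    cl Q g hg + cl Q g' hg' = cl Q (g + g') (add_mem hg hg') := rfl

theorem cl_smul {P Q : Submodule K (PR K N)} (a : K) {g : PR K N} (hg : g ∈ P) :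
    a • cl Q g hg = cl Q (C a * g) (by rw [← smul_eq_C_mul]; exact P.smul_mem _ hg) := by
  have : C a * g = a • g := (smul_eq_C_mul _ _).symm
  simp only [this]
  rfl

theorem hf_QT (hFIN : FINStmt) (J : Ideal (PR K N)) (u : ℕ) :
    Module.finrank K (QT (fm K N u) (J.restrictScalars K)) = hf J u := by
  have : Module.Finite K ↥(fm K N u) := hFIN K N u
  have h1 := finrank_QT (fm K N u) (J.restrictScalars K)
  unfold hf
  omega

theorem _root_.Pool.EG3.t_lnk (hFIN : FINStmt) (hEV1 : EV1Stmt) (hLNI : LNIStmt) : LNKStmt := by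
  intro K _ _ J l u hJ hl hl0 hNP hlt
  by_contra hcon
  obtain ⟨y, hy, z, hz, -, hq, -⟩ := hLNI K l hl hl0
  have f0 : Module.Finite K ↥(fm K 3 u) := hFIN K 3 u
  have f1 : Module.Finite K ↥(fm K 3 (u + 1)) := hFIN K 3 (u + 1)
  -- the kernels
  set A : ℕ → Submodule K (PR K 3) := fun v => (clI J l).restrictScalars K ⊓ fm K 3 v with hA
  have hJA : ∀ v, J.restrictScalars K ⊓ fm K 3 v ≤ A v := by
    intro v g hg
    exact ⟨J.mul_mem_left _ hg.1, hg.2⟩
  have fA : ∀ v, Module.Finite K ↥(A v) := by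
    intro v
    have := hFIN K 3 v
    exact Submodule.finiteDimensional_of_le (inf_le_right : A v ≤ fm K 3 v)
  have f2 := fA u
  have f3 := fA (u + 1)
  have e1 : ∀ v, Module.finrank K (QT (A v) (J.restrictScalars K)) + hf (clI J l) v = hf J v := by
    intro v
    have g0 : Module.Finite K ↥(fm K 3 v) := hFIN K 3 v
    have g1 := fA v
    have h1 := finrank_QT (A v) (J.restrictScalars K)
    have h2 : J.restrictScalars K ⊓ A v = J.restrictScalars K ⊓ fm K 3 v := by
      apply le_antisymm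
      · exact fun g hg => ⟨hg.1, hg.2.2⟩
      · exact fun g hg => ⟨hg.1, hJA v hg⟩
    rw [h2] at h1
    have h3 : Module.finrank K ↥(A v) ≤ Module.finrank K ↥(fm K 3 v) :=
      Submodule.finrank_mono inf_le_right
    have h4 : hf (clI J l) v = Module.finrank K ↥(fm K 3 v) - Module.finrank K ↥(A v) := rfl
    have h5 : hf J v = Module.finrank K ↥(fm K 3 v) -
      Module.finrank K ↥(J.restrictScalars K ⊓ fm K 3 v) := rfl
    omega
  have mA : ∀ w ∈ fm K 3 1, ∀ g ∈ A u, w * g ∈ A (u + 1) := by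
    intro w hw g hg
    refine ⟨?_, ?_⟩
    · change l * (w * g) ∈ J
      rw [mul_left_comm]
      exact J.mul_mem_left _ hg.1
    · have := mul_mem' hw hg.2
      rwa [add_comm] at this
  have mJ : ∀ w : PR K 3, ∀ g ∈ J.restrictScalars K, w * g ∈ J.restrictScalars K :=
    fun w g hg => J.mul_mem_left _ hg
  have a1 := e1 u
  have a2 := e1 (u + 1)
  obtain ⟨α, β, hαβ, v, hv0, hv⟩ := hEV1 K (QT (A u) (J.restrictScalars K))
    (QT (A (u + 1)) (J.restrictScalars K)) (mq y (mA y hy) (mJ y)) (mq z (mA z hz) (mJ z))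
    (by omega) (by omega)
  obtain ⟨q, hq0, hql, hqm, hqall⟩ := hq α β hαβ
  obtain ⟨g, hg, rfl⟩ := cl_surj v
  rw [mq_cl, mq_cl, cl_smul, cl_smul, cl_add, cl_eq_zero] at hv
  apply hv0
  rw [cl_eq_zero]
  refine hNP q hq0 hql g hg.2 ?_
  intro m hm hmq
  obtain ⟨γ, δ, rfl⟩ := hqall m hm hmq
  have h1 : (C γ * l + C δ * (C α * y + C β * z)) * g =
      C γ * (l * g) + C δ * (C α * (y * g) + C β * (z * g)) := by ring
  rw [h1]
  exact add_mem (J.mul_mem_left _ hg.1) (J.mul_mem_left _ hv)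

theorem _root_.Pool.EG3.t_sgc (hFIN : FINStmt) (hPTI : PTIStmt) (hLMM : LMMStmt) : SGCStmt := by
  intro K _ _ J u hJ hNP hBP hne
  have f0 : Module.Finite K ↥(fm K 3 u) := hFIN K 3 u
  have f1 : Module.Finite K ↥(fm K 3 (u + 1)) := hFIN K 3 (u + 1)
  have f2 : Module.Finite K ↥(fm K 3 (u + 2)) := hFIN K 3 (u + 2)
  have mX : ∀ (i : Fin 3) (v : ℕ), ∀ g ∈ fm K 3 v, (X i : PR K 3) * g ∈ fm K 3 (v + 1) := by
    intro i v g hg
    have := mul_mem' (X_mem1 (K := K) i) hg
    rwa [add_comm] at this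
  have mJ : ∀ w : PR K 3, ∀ g ∈ J.restrictScalars K, w * g ∈ J.restrictScalars K :=
    fun w g hg => J.mul_mem_left _ hg
  have key := hLMM K (QT (fm K 3 u) (J.restrictScalars K))
    (QT (fm K 3 (u + 1)) (J.restrictScalars K)) (QT (fm K 3 (u + 2)) (J.restrictScalars K))
    (fun i => mq (X i) (mX i u) (mJ (X i))) (fun i => mq (X i) (mX i (u + 1)) (mJ (X i)))
    (by
      intro i j v
      obtain ⟨g, hg, rfl⟩ := cl_surj v
      simp only [mq_cl]
      have : (X i : PR K 3) * (X j * g) = X j * (X i * g) := by ring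
      simp only [this])
    (by
      intro q hq v hv
      obtain ⟨g, hg, rfl⟩ := cl_surj v
      rw [cl_eq_zero]
      refine hNP q hq g hg ?_
      intro l hl hlq
      have h1 := hv (fun i => coeff (Finsupp.single i 1) l) (by rw [← lin_eval hl]; exact hlq)
      rw [Fin.sum_univ_three] at h1
      rw [mq_cl, mq_cl, mq_cl, cl_smul, cl_smul, cl_smul, cl_add, cl_add, cl_eq_zero] at h1
      have h2 : l * g = C (coeff (Finsupp.single 0 1) l) * (X 0 * g) +
          C (coeff (Finsupp.single 1 1) l) * (X 1 * g) +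
          C (coeff (Finsupp.single 2 1) l) * (X 2 * g) := by
        conv_lhs => rw [lin_eq hl, Fin.sum_univ_three]
        ring
      rw [h2]
      exact h1)
    (by
      intro q hq w
      obtain ⟨G, hG, rfl⟩ := cl_surj w
      obtain ⟨F, hFJ, hF, hFq⟩ := hBP q hq
      obtain ⟨p₁, hp₁, p₂, hp₂, -, -, h1, h2, -, -, -, -, h3⟩ := hPTI K q hq
      have hG' : G - C (eval q G / eval q F) * F ∈ fm K 3 (u + 2) :=
        sub_mem hG (C_mul_mem hF _)
      obtain ⟨F₁, hF₁, F₂, hF₂, e⟩ := h3 (u + 1) (G - C (eval q G / eval q F) * F) hG' (by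
        rw [map_sub, map_mul, eval_C]
        field_simp
        ring)
      have hp : ∀ (p : PR K 3) (hpm : p ∈ fm K 3 1), eval q p = 0 →
          ∀ (F' : PR K 3) (hF' : F' ∈ fm K 3 (u + 1)),
          cl (J.restrictScalars K) (p * F') (by
            have := mul_mem' hpm hF'
            rwa [add_comm] at this : p * F' ∈ fm K 3 (u + 2)) ∈
          Submodule.span K {w : QT (fm K 3 (u + 2)) (J.restrictScalars K) |
            ∃ (p : Fin 3 → K) (v : QT (fm K 3 (u + 1)) (J.restrictScalars K)),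
              ∑ i, p i * q i = 0 ∧ w = ∑ i, p i • mq (X i) (mX i (u + 1)) (mJ (X i)) v} := by
        intro p hp hpq F' hF'
        apply Submodule.subset_span
        refine ⟨fun i => coeff (Finsupp.single i 1) p, cl _ F' hF', by
          rw [← lin_eval hp]; exact hpq, ?_⟩
        rw [Fin.sum_univ_three, mq_cl, mq_cl, mq_cl, cl_smul, cl_smul, cl_smul, cl_add, cl_add]
        have h2 : p * F' = C (coeff (Finsupp.single 0 1) p) * (X 0 * F') +
            C (coeff (Finsupp.single 1 1) p) * (X 1 * F') +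
            C (coeff (Finsupp.single 2 1) p) * (X 2 * F') := by
          conv_lhs => rw [lin_eq hp, Fin.sum_univ_three]
          ring
        simp only [h2]
      have a1 := hp p₁ hp₁ h1 F₁ hF₁
      have a2 := hp p₂ hp₂ h2 F₂ hF₂
      have a3 := add_mem a1 a2
      rw [cl_add] at a3
      have a4 : cl (J.restrictScalars K) G hG =
          cl (J.restrictScalars K) (p₁ * F₁ + p₂ * F₂) (by rw [← e]; exact hG') := by
        rw [← sub_eq_zero]
        have : cl (J.restrictScalars K) G hG -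
          cl (J.restrictScalars K) (p₁ * F₁ + p₂ * F₂) (by rw [← e]; exact hG') =
          cl (J.restrictScalars K) (G - (p₁ * F₁ + p₂ * F₂)) (sub_mem hG (by
            rw [← e]; exact hG')) := rfl
        rw [this, cl_eq_zero, ← e]
        have h5 : G - (G - C (eval q G / eval q F) * F) = C (eval q G / eval q F) * F := by ring
        rw [h5]
        exact J.mul_mem_left _ hFJ
      rw [a4]
      exact a3)
    (by rw [hf_QT hFIN]; exact hne)
  rw [hf_QT hFIN, hf_QT hFIN, hf_QT hFIN] at key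
  exact key

end Pool.EG3.LNK86
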