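import Pool.Agent.H45.EG3.S1

/-!
# EG3: the numerical theorem (module NMA)
-/

set_option autoImplicit false

namespace Pool.EG3.NMA86

open Pool.EG3

/-- the Hilbert function in two variables, as an integer function -/
def Nz (b c m : ℤ) : ℤ := max 0 (min (m + 1) (min b (b + c - 1 - m)))

/-- sum of the rows -/
def Rz (b c m : ℤ) (p : ℕ) : ℤ := ∑ j ∈ Finset.range p, Nz b c (m - j)

theorem nn_cast (b c m : ℕ) : (Nn b c m : ℤ) = Nz b c m := by
  unfold Nn Nz; omega

theorem rz_succ (b c m : ℤ) (p : ℕ) : Rz b c m (p + 1) = Rz b c m p + Nz b c (m - p) := by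
  unfold Rz; rw [Finset.sum_range_succ]

theorem rz_succ' (b c m : ℤ) (p : ℕ) : Rz b c (m + 1) (p + 1) = Nz b c (m + 1) + Rz b c m p := by
  unfold Rz
  rw [Finset.sum_range_succ']
  have : ∀ j ∈ Finset.range p, Nz b c (m + 1 - ((j + 1 : ℕ) : ℤ)) = Nz b c (m - j) := by
    intro j _
    congr 1
    push_cast
    ring
  rw [Finset.sum_congr rfl this]
  simp
  ring

theorem rz_zero (b c m : ℤ) : Rz b c m 0 = 0 := by simp [Rz]

theorem rz_step (b c m : ℤ) (p : ℕ) :
    Rz b c m p - Rz b c (m - 1) p = Nz b c m - Nz b c (m - p) := by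
  induction p with
  | zero => simp [rz_zero]
  | succ p ih =>
      rw [rz_succ, rz_succ]
      have e : m - 1 - (p : ℤ) = m - ((p + 1 : ℕ) : ℤ) := by push_cast; ring
      rw [e]
      linarith

theorem nz_nonneg (b c m : ℤ) : 0 ≤ Nz b c m := le_max_left _ _

theorem rz_mono (b c m : ℤ) {p r : ℕ} (h : p ≤ r) : Rz b c m p ≤ Rz b c m r := by
  induction r, h using Nat.le_induction with
  | base => exact le_rfl
  | succ r _ ih =>
      rw [rz_succ]
      have := nz_nonneg b c (m - r)
      linarith

/-- the row of `k` and the value of `ls` -/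
theorem row (b c : ℕ) (m : ℕ) : ∀ k : ℕ, 1 ≤ k → ∃ p : ℕ, p ≤ m ∧ Rz b c m p < k ∧
    (p < m → (k : ℤ) ≤ Rz b c m p + Nz b c (m - p)) ∧
    (ls b c m k : ℤ) = Rz b c (m - 1) p + min (Nz b c (m - 1 - p))
      (k - Rz b c m p + if (c : ℤ) ≤ m - p then 1 else 0) := by
  induction m with
  | zero =>
      intro k hk
      refine ⟨0, le_rfl, by rw [rz_zero]; exact_mod_cast hk, by omega, ?_⟩
      rw [rz_zero, rz_zero]
      have e1 : ls b c 0 k = 0 := rfl
      rw [e1]
      have e2 : Nz b c (((0 : ℕ) : ℤ) - 1 - ((0 : ℕ) : ℤ)) = 0 := by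
        unfold Nz; push_cast; omega
      rw [e2]
      split_ifs <;> omega
  | succ m ih =>
      intro k hk
      have e0 : ls b c (m + 1) k = if k = 0 then 0
        else if k ≤ Nn b c (m + 1) then min (Nn b c m) (k + if c ≤ m + 1 then 1 else 0)
        else Nn b c m + ls b c m (k - Nn b c (m + 1)) := rfl
      rw [if_neg (by omega)] at e0
      by_cases h : k ≤ Nn b c (m + 1)
      · rw [if_pos h] at e0
        refine ⟨0, by omega, by rw [rz_zero]; exact_mod_cast hk, fun _ => ?_, ?_⟩
        · rw [rz_zero]
          have := nn_cast b c (m + 1)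
          have h' : (k : ℤ) ≤ (Nn b c (m + 1) : ℤ) := by exact_mod_cast h
          rw [this] at h'
          simpa using h'
        · rw [e0, rz_zero, rz_zero]
          have e1 := nn_cast b c m
          have e2 : (((m + 1 : ℕ) : ℤ) - 1 - ((0 : ℕ) : ℤ)) = m := by push_cast; ring
          rw [e2, ← e1]
          have e3 : ((c : ℤ) ≤ ((m + 1 : ℕ) : ℤ) - ((0 : ℕ) : ℤ)) ↔ c ≤ m + 1 := by
            push_cast; omega
          by_cases h1 : c ≤ m + 1
          · rw [if_pos h1, if_pos (e3.2 h1)]
            push_cast
            simp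
          · rw [if_neg h1, if_neg (fun h2 => h1 (e3.1 h2))]
            push_cast
            simp
      · rw [if_neg h] at e0
        push Not at h
        obtain ⟨p, hp, h1, h2, h3⟩ := ih (k - Nn b c (m + 1)) (by omega)
        have ek : ((k - Nn b c (m + 1) : ℕ) : ℤ) = k - Nz b c ((m : ℤ) + 1) := by
          rw [Nat.cast_sub h.le, nn_cast]; push_cast; ring
        rw [ek] at h1 h2 h3
        refine ⟨p + 1, by omega, ?_, ?_, ?_⟩
        · push_cast
          rw [rz_succ']
          linarith
        · intro hpm
          have := h2 (by omega)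
          push_cast
          rw [rz_succ']
          have e : (m : ℤ) + 1 - ((p : ℤ) + 1) = m - p := by ring
          rw [e]
          linarith
        · rw [e0]
          push_cast
          rw [h3, nn_cast]
          have e1 : (m : ℤ) + 1 - 1 = (m - 1) + 1 := by ring
          rw [rz_succ', e1, rz_succ']
          have e2 : (m : ℤ) - 1 + 1 - ((p : ℤ) + 1) = m - 1 - p := by ring
          have e3 : (m : ℤ) + 1 - ((p : ℤ) + 1) = m - p := by ring
          have e4 : (m : ℤ) - 1 + 1 = m := by ring
          rw [e2, e3, e4]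
          have e5 : (k : ℤ) - (Nz b c ((m : ℤ) + 1) + Rz b c m p) =
            k - Nz b c ((m : ℤ) + 1) - Rz b c m p := by ring
          rw [e5]
          ring

/-- the loss -/
theorem loss (b c T k : ℕ) (hk : 1 ≤ k) : ∃ p : ℕ, p ≤ T ∧ Rz b c T p < k ∧
    (p < T → (k : ℤ) ≤ Rz b c T p + Nz b c (T - p)) ∧
    (ls b c T k : ℤ) - k = Nz b c (T - p) - Nz b c T + min (Nz b c (T - 1 - p) -
      (k - Rz b c T p)) (if (c : ℤ) ≤ T - p then 1 else 0) := by
  obtain ⟨p, h1, h2, h3, h4⟩ := row b c T k hk
  refine ⟨p, h1, h2, h3, ?_⟩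
  rw [h4]
  have e := rz_step b c T p
  split_ifs <;> omega

/-- general bound for the loss -/
theorem gb (b c T k : ℕ) (hb : 2 ≤ b) (hbc : b ≤ c) :
    (ls b c T k : ℤ) - k ≤ max 0 ((T : ℤ) + 1 - c) := by
  rcases Nat.eq_zero_or_pos k with rfl | hk
  · have : ls b c T 0 = 0 := by
      cases T <;> rfl
    rw [this]
    omega
  · obtain ⟨p, h1, h2, h3, h4⟩ := loss b c T k hk
    rw [h4]
    unfold Nz
    split_ifs <;> omega

/-- size of the rows between `τ` and `q` -/
theorem lb (b c T q : ℕ) (hb : 2 ≤ b) (hbc : b ≤ c) (hqb : q ≤ b) (hqT : q ≤ T + 1) (τ : ℤ)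
    (hτ : τ = max 0 ((T : ℤ) + 1 - b)) (r : ℕ) (hr : τ ≤ r) (s : ℕ) (hrs : r ≤ s) (hs : s ≤ q) :
    ((s : ℤ) - r) * (τ + 1) ≤ Rz b c T s - Rz b c T r := by
  induction s, hrs using Nat.le_induction with
  | base => simp
  | succ s hrs ih =>
      have ih' := ih (by omega)
      rw [rz_succ]
      have : τ + 1 ≤ Nz b c (T - s) := by
        unfold Nz; omega
      push_cast
      linarith

/-- the main numerical inequality -/
theorem mi (b c T q : ℕ) (y : ℤ) (k : ℕ) (hb : 2 ≤ b) (hbc : b ≤ c) (hy : 0 ≤ y)
    (hqb : q ≤ b) (hqT : q ≤ T + 1) (τ : ℤ) (hτ : τ = max 0 ((T : ℤ) + 1 - b)) (hq : τ ≤ q)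
    (hk : 1 ≤ k) (hkR : Rz b c T q - τ * y ≤ k) :
    (ls b c T k : ℤ) - k ≤ y + Nz b c (T - q) - Nz b c T := by
  obtain ⟨p, h1, h2, h3, h4⟩ := loss b c T k hk
  rw [h4]
  set κ : ℤ := k - Rz b c T p with hκ
  have τ0 : 0 ≤ τ := by omega
  rcases Nat.lt_or_ge p q with hpq | hpq
  · rcases lt_or_ge (p : ℤ) τ with hpτ | hpτ
    · -- p < τ
      obtain ⟨σ, rfl⟩ : ∃ σ : ℕ, τ = σ := ⟨τ.toNat, by omega⟩
      have hσ : (σ : ℤ) = T + 1 - b := by omega
      have hk2 := h3 (by omega)
      have e1 : Rz b c T p + Nz b c (T - p) ≤ Rz b c T σ := by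
        rw [← rz_succ]
        exact rz_mono b c T (by omega)
      have e2 := lb b c T q hb hbc hqb hqT σ hτ σ le_rfl q (by omega) le_rfl
      have e3 : ((q : ℤ) - σ) * (σ + 1) ≤ σ * y := by linarith
      have e4 : (q : ℤ) - σ ≤ y := by
        by_contra hc
        push Not at hc
        nlinarith
      have e5 : Nz b c (T - q) = T - q + 1 := by unfold Nz; omega
      rw [e5]
      have e6 : Nz b c (T - p) + min (Nz b c (T - 1 - p) - κ)
          (if (c : ℤ) ≤ T - p then 1 else 0) ≤ b := by
        unfold Nz
        split_ifs <;> omega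
      omega
    · -- τ ≤ p < q
      have e1 := lb b c T q hb hbc hqb hqT τ hτ (p + 1) (by push_cast; omega) q (by omega) le_rfl
      rw [rz_succ] at e1
      have e2 : Nz b c (T - p) = T - p + 1 := by unfold Nz; omega
      have e3 : Nz b c (T - 1 - p) = T - p := by unfold Nz; omega
      have e4 : Nz b c (T - q) = T - q + 1 := by unfold Nz; omega
      rw [e2] at e1
      rw [e2] at h3
      rw [e2, e3, e4]
      have e5 : ¬ ((c : ℤ) ≤ T - p) := by omega
      rw [if_neg e5]
      push_cast at e1
      have e6 : ((q : ℤ) - (p + 1)) * (τ + 1) ≤ τ * y - (T - p + 1 - κ) := by linarith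
      have κ1 : 1 ≤ κ := by omega
      rcases Nat.lt_or_ge p T with hpT | hpT
      · have h3' : κ ≤ T - p + 1 := by have := h3 hpT; omega
        rcases lt_or_ge κ (T - p + 1) with hκ1 | hκ1
        · have e7 : (q : ℤ) - p ≤ y := by
            by_contra hc
            push Not at hc
            nlinarith
          omega
        · have e7 : (q : ℤ) - p - 1 ≤ y := by
            by_contra hc
            push Not at hc
            nlinarith
          omega
      · omega
  · -- q ≤ p
    have e1 : Nz b c (T - p) ≤ Nz b c (T - q) := by unfold Nz; omega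
    have e5 : ¬ ((c : ℤ) ≤ T - p) := by omega
    rw [if_neg e5]
    omega

theorem rz_neg (b c : ℤ) (q : ℕ) : Rz b c (-1) q = 0 := by
  unfold Rz
  apply Finset.sum_eq_zero
  intro j _
  unfold Nz
  omega

/-- the numerical theorem for integer differences -/
theorem core (b c t e : ℕ) (B : ℕ → ℕ) (D : ℕ → ℤ) (hD : ∀ u, D u = (B (u + 1) : ℤ) - B u)
    (hb : 2 ≤ b) (hbc : b ≤ c) (he : 1 ≤ e) (heb : e ≤ b) (hB0 : B 0 = 0)
    (h1 : ∀ u, u + 1 ≤ e → D u = u + 1)
    (hA : ∀ u, e ≤ u + 1 → u ≤ t → D (u + 1) ≤ D u)
    (hB : ∀ u, b ≤ u + 1 → u + 2 ≤ c → u ≤ t → D (u + 1) ≤ D u - 1 ∨ (D u = 0 ∧ D (u + 1) = 0))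
    (hC : ∀ u, c ≤ u + 1 → u ≤ t → D (u + 1) ≤ D u - 2) :
    (ls b c (t + 1) (B (t + 2)) : ℤ) - B (t + 2) ≤ - D (t + 1) := by
  -- monotonicity
  have mono : ∀ u v, e ≤ u + 1 → u ≤ v → v ≤ t + 1 → D v ≤ D u := by
    intro u v hu huv
    induction v, huv using Nat.le_induction with
    | base => intro _; exact le_rfl
    | succ v huv ih =>
        intro hv
        have a1 := ih (by omega)
        have a2 := hA v (by omega) (by omega)
        linarith
  have hD' : D (t + 1) = (B (t + 2) : ℤ) - B (t + 1) := hD (t + 1)
  rcases Nat.eq_zero_or_pos (B (t + 2)) with hk | hk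
  · have h0 : ls b c (t + 1) 0 = 0 := rfl
    rw [hk, h0]
    rw [hD', hk]
    simp
  -- lower comparison for small degrees
  have low : ∀ (n : ℕ) (q : ℕ), n ≤ b → (∀ m < n, m + 1 ≤ e ∨ (q : ℤ) ≤ D m) →
      Rz b c (n - 1) q ≤ B n := by
    intro n q
    induction n with
    | zero =>
        intro _ _
        have : (((0 : ℕ) : ℤ) - 1) = -1 := by norm_num
        rw [this, rz_neg]
        positivity
    | succ n ih =>
        intro hn hm
        have a1 := ih (by omega) (fun m hm' => hm m (by omega))
        have a2 := rz_step b c n q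
        have e1 : (((n + 1 : ℕ) : ℤ) - 1) = n := by push_cast; ring
        rw [e1]
        have a3 : Nz b c n - Nz b c (n - q) ≤ D n := by
          rcases hm n (by omega) with h | h
          · rw [h1 n h]
            unfold Nz; omega
          · unfold Nz; omega
        have a4 := hD n
        linarith
  rcases Nat.lt_or_ge (t + 1) b with hTb | hTb
  · -- case I
    rcases le_or_gt (D (t + 1)) 0 with h0 | h0
    · have := gb b c (t + 1) (B (t + 2)) hb hbc
      push_cast at this
      omega
    · obtain ⟨q, hq⟩ : ∃ q : ℕ, D (t + 1) = q := ⟨(D (t + 1)).toNat, by omega⟩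
      have hqT : q ≤ t + 2 := by
        rcases Nat.lt_or_ge (t + 1) e with h | h
        · have := h1 (t + 1) (by omega)
          push_cast at this
          omega
        · have a1 := mono (e - 1) (t + 1) (by omega) (by omega) le_rfl
          have a2 := h1 (e - 1) (by omega)
          omega
      have hkR := low (t + 2) q (by omega) (by
        intro m hm
        rcases Nat.lt_or_ge m e with h | h
        · left; omega
        · right
          have := mono m (t + 1) (by omega) (by omega) le_rfl
          omega)
      have e1 : (((t + 2 : ℕ) : ℤ) - 1) = ((t + 1 : ℕ) : ℤ) := by push_cast; ring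
      rw [e1] at hkR
      have := mi b c (t + 1) q 0 (B (t + 2)) hb hbc le_rfl (by omega) (by omega) 0
        (by push_cast; omega) (by positivity) hk (by simpa using hkR)
      have e2 : Nz b c (((t + 1 : ℕ) : ℤ) - q) = t + 2 - q := by unfold Nz; push_cast; omega
      have e3 : Nz b c ((t + 1 : ℕ) : ℤ) = t + 2 := by unfold Nz; push_cast; omega
      rw [e2, e3] at this
      omega
  · -- case II
    have hq0 : D (b - 1) ≤ b := by
      have a1 := mono (e - 1) (b - 1) (by omega) (by omega) (by omega)
      have a2 := h1 (e - 1) (by omega)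
      omega
    have gbd := gb b c (t + 1) (B (t + 2)) hb hbc
    push_cast at gbd
    have desc2 : ∀ u, c - 1 ≤ u → u ≤ t + 1 → D u ≤ D (c - 1) - 2 * (u - (c - 1)) := by
      intro u hu
      induction u, hu using Nat.le_induction with
      | base => intro _; push_cast [Nat.cast_sub (show 1 ≤ c by omega)]; simp
      | succ u hu ih =>
          intro hv
          have a1 := ih (by omega)
          have a2 := hC u (by omega) (by omega)
          push_cast
          linarith
    by_cases hz : ∃ u, b ≤ u + 1 ∧ u + 2 ≤ c ∧ u ≤ t ∧ D u = 0 ∧ D (u + 1) = 0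
    · obtain ⟨u, z1, z2, z3, z4, z5⟩ := hz
      rcases Nat.lt_or_ge (t + 1) c with hc | hc
      · have := mono (u + 1) (t + 1) (by omega) (by omega) le_rfl
        omega
      · have a1 := mono (u + 1) (c - 1) (by omega) (by omega) (by omega)
        have a2 := desc2 (t + 1) (by omega) le_rfl
        push_cast at a2
        omega
    · have hB' : ∀ u, b ≤ u + 1 → u + 2 ≤ c → u ≤ t → D (u + 1) ≤ D u - 1 := by
        intro u u1 u2 u3
        rcases hB u u1 u2 u3 with h | h
        · exact h
        · exact absurd ⟨u, u1, u2, u3, h⟩ hz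
      have desc1 : ∀ u, b - 1 ≤ u → u ≤ t + 1 → u ≤ c - 1 → D u ≤ D (b - 1) - (u - (b - 1)) := by
        intro u hu
        induction u, hu using Nat.le_induction with
        | base => intro _ _; push_cast [Nat.cast_sub (show 1 ≤ b by omega)]; simp
        | succ u hu ih =>
            intro hv hw
            have a1 := ih (by omega) (by omega)
            have a2 := hB' u (by omega) (by omega) (by omega)
            push_cast
            linarith
      rcases le_or_gt (D (b - 1)) ((t : ℤ) + 2 - b) with hq | hq
      · -- few rows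
        rcases Nat.lt_or_ge (t + 1) c with hc | hc
        · have := desc1 (t + 1) (by omega) le_rfl (by omega)
          push_cast at this
          omega
        · have a1 := desc1 (c - 1) (by omega) (by omega) le_rfl
          have a2 := desc2 (t + 1) (by omega) le_rfl
          push_cast [Nat.cast_sub (show 1 ≤ c by omega)] at a1
          push_cast at a2
          omega
      · obtain ⟨q, hqe⟩ : ∃ q : ℕ, D (b - 1) = q := ⟨(D (b - 1)).toNat, by omega⟩
        have key : ∀ n : ℕ, b ≤ n → n ≤ t + 2 →
            Rz b c (n - 1) q ≤ B n + ((n : ℤ) - b) * (Nz b c (n - 1) - Nz b c (n - 1 - q) -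
              D (n - 1)) ∧ 0 ≤ Nz b c (n - 1) - Nz b c (n - 1 - q) - D (n - 1) := by
          intro n hn
          induction n, hn using Nat.le_induction with
          | base =>
              intro _
              constructor
              · have := low b q le_rfl (by
                  intro m hm
                  rcases Nat.lt_or_ge m e with h | h
                  · left; omega
                  · right
                    have := mono m (b - 1) (by omega) (by omega) (by omega)
                    omega)
                simpa using this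
              · rw [hqe]
                unfold Nz; omega
          | succ n hn ih =>
              intro hn2
              obtain ⟨i1, i2⟩ := ih (by omega)
              have a2 := rz_step b c n q
              have e1 : (((n + 1 : ℕ) : ℤ) - 1) = n := by push_cast; ring
              have e2 : n + 1 - 1 = n := rfl
              rw [e1, e2]
              have st : Nz b c (n - 1) - Nz b c (n - 1 - q) - D (n - 1) ≤
                  Nz b c n - Nz b c (n - q) - D n := by
                obtain ⟨n', rfl⟩ : ∃ n', n = n' + 1 := ⟨n - 1, by omega⟩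
                have e3 : n' + 1 - 1 = n' := rfl
                rw [e3]
                rcases Nat.lt_or_ge (n' + 1) c with hc | hc
                · have := hB' n' (by omega) (by omega) (by omega)
                  unfold Nz; push_cast; omega
                · have := hC n' (by omega) (by omega)
                  unfold Nz; push_cast; omega
              have a4 := hD n
              constructor
              · have a5 : ((n : ℤ) - b) * (Nz b c (n - 1) - Nz b c (n - 1 - q) - D (n - 1)) ≤
                    ((n : ℤ) - b) * (Nz b c n - Nz b c (n - q) - D n) :=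
                  mul_le_mul_of_nonneg_left st (by
                    have : (b : ℤ) ≤ n := by exact_mod_cast hn
                    linarith)
                push_cast
                have a6 : ((n : ℤ) + 1 - b) * (Nz b c n - Nz b c (n - q) - D n) =
                    ((n : ℤ) - b) * (Nz b c n - Nz b c (n - q) - D n) +
                      (Nz b c n - Nz b c (n - q) - D n) := by ring
                rw [a6]
                linarith
              · linarith
        obtain ⟨k1, k2⟩ := key (t + 2) (by omega) le_rfl
        have e1 : (((t + 2 : ℕ) : ℤ) - 1) = ((t + 1 : ℕ) : ℤ) := by push_cast; ring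
        have e2 : t + 2 - 1 = t + 1 := rfl
        rw [e1, e2] at k1 k2
        have := mi b c (t + 1) q (Nz b c ((t + 1 : ℕ) : ℤ) - Nz b c (((t + 1 : ℕ) : ℤ) - q) -
          D (t + 1)) (B (t + 2)) hb hbc k2 (by omega) (by omega) ((t : ℤ) + 2 - b)
          (by push_cast; omega) (by omega) hk (by
            have e3 : ((t + 2 : ℕ) : ℤ) - b = (t : ℤ) + 2 - b := by push_cast; ring
            rw [e3] at k1
            linarith)
        linarith

theorem _root_.Pool.EG3.t_nma : NMAStmt := by
  intro a b c t e B ha hab hbc he hea h0 hA hB hC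
  have hb : 2 ≤ b := ha.trans hab
  have hB0 : B 0 = 0 := by have := h0 0 (by omega); omega
  have := core b c t e B (fun u => (B (u + 1) : ℤ) - B u) (fun u => rfl) hb hbc he
    (hea.trans hab) hB0 (by
      intro u hu
      have a1 := h0 u (by omega)
      have a2 := h0 (u + 1) hu
      have a1' : 2 * (B u : ℤ) = u * (u + 1) := by exact_mod_cast a1
      have a2' : 2 * (B (u + 1) : ℤ) = (u + 1) * (u + 1 + 1) := by exact_mod_cast a2
      have : (u : ℤ) * (u + 1) + 2 * (u + 1) = (u + 1) * (u + 1 + 1) := by ring
      show (B (u + 1) : ℤ) - B u = u + 1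
      linarith)
    (by
      intro u u1 u2
      have := hA u u1 u2
      show (B (u + 1 + 1) : ℤ) - B (u + 1) ≤ (B (u + 1) : ℤ) - B u
      have e : u + 1 + 1 = u + 2 := rfl
      rw [e]
      omega)
    (by
      intro u u1 u2 u3
      show (B (u + 1 + 1) : ℤ) - B (u + 1) ≤ (B (u + 1) : ℤ) - B u - 1 ∨
        ((B (u + 1) : ℤ) - B u = 0 ∧ (B (u + 1 + 1) : ℤ) - B (u + 1) = 0)
      have e : u + 1 + 1 = u + 2 := rfl
      rw [e]
      have := hB u u1 u2 u3
      omega)
    (by
      intro u u1 u2
      have := hC u u1 u2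
      show (B (u + 1 + 1) : ℤ) - B (u + 1) ≤ (B (u + 1) : ℤ) - B u - 2
      have e : u + 1 + 1 = u + 2 := rfl
      rw [e]
      omega)
  have e : t + 1 + 1 = t + 2 := rfl
  simp only [e] at this
  omega

end Pool.EG3.NMA86
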